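import Pool.Agent.Helper2.EC_C.Goals
import Pool.Agent.Helper2.EC_C.Basic

/-!
# MP_ecc237_nt, Part C: packet K5
-/

namespace ECC.PkK5

open EC237

theorem sum_sq : ∀ M : ℕ, 1 ≤ M → ∑ j ∈ Finset.Ico 1 M, ((j:ℝ)) ^ 2 =
    (2 * (M:ℝ) ^ 3 - 3 * (M:ℝ) ^ 2 + (M:ℝ)) / 6 := by
  intro M hM
  induction M, hM using Nat.le_induction with
  | base => norm_num
  | succ n hn ih =>
    rw [Finset.sum_Ico_succ_top hn, ih]
    push_cast
    ring

theorem k5 (ram : G_RAM) : G_K5 := by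
  intro q hq
  have habs : ∀ n : ℤ, (0:ℝ) ≤ |(n:ℝ)| := fun n => abs_nonneg _
  have h := ram (fun n => (n:ℝ) ^ 2) 1 (fun _ n => -4 * (n:ℝ)) (fun _ n => (n:ℝ)) 4 2
    (fun n => by push_cast; ring)
    (fun n => by
      rw [abs_pow]
      nlinarith [habs n])
    (fun _ n => by
      rw [abs_mul]
      norm_num
      nlinarith [habs n])
    (fun _ n => by nlinarith [habs n])
    (fun a b _ _ => by
      rw [Finset.sum_range_one]
      push_cast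
      ring) q hq
  rw [Finset.sum_range_one] at h
  have e1 : LS (fun M _ => -4 * (((M:ℕ):ℤ):ℝ)) q = -4 * GS q := by
    have h1 : LS (fun M _ => -4 * (((M:ℕ):ℤ):ℝ)) q = -4 * LS (fun M _ => (M:ℝ)) q := by
      rw [← LS_mul_left]
      refine LS_congr (fun M ν _ _ => ?_) q
      push_cast
      ring
    rw [h1]
    congr 1
    exact LS_swap (fun _ ν => (ν:ℝ)) q
  have e2 : LS (fun M _ => (((M:ℕ):ℤ):ℝ)) q = GS q := by
    have h1 : LS (fun M _ => (((M:ℕ):ℤ):ℝ)) q = LS (fun M _ => (M:ℝ)) q :=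
      LS_congr (fun M ν _ _ => by push_cast; ring) q
    rw [h1]
    exact LS_swap (fun _ ν => (ν:ℝ)) q
  have e3 : LS (fun M ν => (ν:ℝ) * (((M:ℕ):ℤ):ℝ) ^ 2) q = GT q := by
    have h1 : LS (fun M ν => (ν:ℝ) * (((M:ℕ):ℤ):ℝ) ^ 2) q =
        LS (fun M ν => (ν:ℝ) * (M:ℝ) ^ 2) q :=
      LS_congr (fun M ν _ _ => by push_cast; ring) q
    rw [h1]
    exact LS_swap (fun M ν => (M:ℝ) * (ν:ℝ) ^ 2) q
  have eH : LS (fun M _ => (M:ℝ) ^ 3) q = HS q := LS_swap (fun _ ν => (ν:ℝ) ^ 3) q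
  have eG : LS (fun M _ => (M:ℝ)) q = GS q := LS_swap (fun _ ν => (ν:ℝ)) q
  have e4 : LS (fun M _ => ((M:ℝ) + 1) * (((M:ℕ):ℤ):ℝ) ^ 2) q =
      HS q + LS (fun M _ => (M:ℝ) ^ 2) q := by
    rw [← eH, ← LS_add (PG.M.pow 3) (PG.M.pow 2) hq]
    refine LS_congr (fun M ν _ _ => ?_) q
    push_cast
    ring
  have e5 : LS (fun M _ => ∑ j ∈ Finset.Ico 1 M, (((j:ℕ):ℤ):ℝ) ^ 2) q =
      1 / 3 * HS q + (-1 / 2) * LS (fun M _ => (M:ℝ) ^ 2) q + 1 / 6 * GS q := by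
    rw [← eH, ← eG, ← LS_mul_left, ← LS_mul_left, ← LS_mul_left,
      ← LS_add ((PG.const _).mul (PG.M.pow 3)) ((PG.const _).mul (PG.M.pow 2)) hq,
      ← LS_add (((PG.const _).mul (PG.M.pow 3)).add ((PG.const _).mul (PG.M.pow 2)))
        ((PG.const _).mul PG.M) hq]
    refine LS_congr (fun M ν hM _ => ?_) q
    have h1 : ∀ j ∈ Finset.Ico 1 M, (((j:ℕ):ℤ):ℝ) ^ 2 = (j:ℝ) ^ 2 := fun j _ => by push_cast; ring
    rw [Finset.sum_congr rfl h1, sum_sq M hM]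
    ring
  rw [e1, e2, e3, e4, e5] at h
  have h0 : (((0:ℤ)):ℝ) ^ 2 = 0 := by norm_num
  rw [h0, zero_mul] at h
  linarith

end ECC.PkK5
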